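import Pool.Agent.Helper40.Ct.Goals

/-!
# Elementary properties of the simplices of the grid
-/

open Finset

namespace Pool.Agent.Helper6.Ct

open Pool.Agent.Helper40.Ct

theorem step_apply {d : ℕ} (σ : Equiv.Perm (Fin d)) (s : ℕ) (k : Fin d) :
    (∑ t ∈ univ.filter (fun t : Fin d => (t : ℕ) < s), Pi.single (σ t) (1 : ℤ) : Fin d → ℤ) k =
      if ((σ.symm k : Fin d) : ℕ) < s then 1 else 0 := by
  rw [Finset.sum_apply]
  have h : ∀ t : Fin d, (Pi.single (σ t) (1 : ℤ) : Fin d → ℤ) k = if t = σ.symm k then 1 else 0 := by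
    intro t
    rw [Pi.single_apply]
    have : (k = σ t) ↔ (t = σ.symm k) := by
      rw [Equiv.eq_symm_apply]; exact eq_comm
    simp only [this]
  simp only [h]
  rw [Finset.sum_ite_eq']
  simp only [mem_filter, mem_univ, true_and]

theorem gre : GRE := by
  intro d x σ
  refine ⟨List.length_ofFn, ?_, ?_⟩
  · rw [frd, List.nodup_ofFn]
    have key : ∀ a b : Fin (d + 1), (a : ℕ) < b →
        x + ∑ t ∈ univ.filter (fun t : Fin d => (t : ℕ) < a), Pi.single (σ t) (1 : ℤ) ≠
        x + ∑ t ∈ univ.filter (fun t : Fin d => (t : ℕ) < b), Pi.single (σ t) (1 : ℤ) := by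
      intro a b hab he
      have hd : (a : ℕ) < d := by have := b.2; omega
      have h1 := congrFun (add_left_cancel he) (σ ⟨a, hd⟩)
      rw [step_apply, step_apply, Equiv.symm_apply_apply] at h1
      simp only [lt_irrefl, if_false, hab, if_true] at h1
      exact zero_ne_one h1
    intro a b he
    rcases lt_trichotomy (a : ℕ) b with h | h | h
    · exact absurd he (key a b h)
    · exact Fin.ext h
    · exact absurd he.symm (key b a h)
  · intro y hy k
    rw [frd, List.mem_ofFn] at hy
    obtain ⟨s, rfl⟩ := hy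
    rw [Pi.add_apply, step_apply]
    split_ifs
    · constructor <;> linarith
    · constructor <;> linarith

end Pool.Agent.Helper6.Ct
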